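import Pool.Agent.H23.NVK.MTargets

/-! Row M_CVI of the board `nvk_modules`: convolution identities of the Moebius function. -/

set_option autoImplicit false

namespace Pool.Agent.H11.NVK

open Pool.Agent.H23.NVK

/-- local factor of `mr` -/
def fm (k : ℕ) : ℝ := if k = 0 then 1 else if k = 1 then -1 else 0

/-- local factor of `m2` -/
def f2 (k : ℕ) : ℝ := if k = 0 then 1 else if k = 1 then -2 else if k = 2 then 1 else 0

theorem fm0 : fm 0 = 1 := by simp [fm]
theorem fm1 : fm 1 = -1 := by simp [fm]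
theorem fm2 (i : ℕ) : fm (i + 2) = 0 := by simp [fm]
theorem f20 : f2 0 = 1 := by simp [f2]
theorem f21 : f2 1 = -2 := by simp [f2]
theorem f22 : f2 2 = 1 := by simp [f2]
theorem f23 (i : ℕ) : f2 (i + 3) = 0 := by simp [f2]

theorem mr_eq {α : Type} (n : α →₀ ℕ) : mr n = n.prod fun _ k => fm k := by
  unfold mr
  refine Finset.prod_congr rfl fun p hp => ?_
  have h := Finsupp.mem_support_iff.1 hp
  simp [fm, h]

theorem m2_eq {α : Type} (n : α →₀ ℕ) : m2 n = n.prod fun _ k => f2 k := by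
  unfold m2
  refine Finset.prod_congr rfl fun p hp => ?_
  have h := Finsupp.mem_support_iff.1 hp
  simp [f2, h]

theorem one_eq {α : Type} (n : α →₀ ℕ) : (1 : ℝ) = n.prod fun _ _ => (1 : ℝ) := by
  unfold Finsupp.prod
  rw [Finset.prod_const_one]

/-- sums over the antidiagonal in which only the first two terms survive -/
theorem anti_fm (g : ℕ → ℝ) (k : ℕ) :
    ∑ i ∈ Finset.HasAntidiagonal.antidiagonal (k + 1), fm i.1 * g i.2 = g (k + 1) - g k := by
  rw [Finset.Nat.sum_antidiagonal_eq_sum_range_succ (fun a b => fm a * g b) (k + 1)]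
  rw [Finset.sum_range_succ', Finset.sum_range_succ']
  have h : ∑ i ∈ Finset.range k, fm (i + 1 + 1) * g (k + 1 - (i + 1 + 1)) = 0 := by
    refine Finset.sum_eq_zero fun i _ => ?_
    rw [fm2, zero_mul]
  rw [h, fm0]
  have h1 : fm (0 + 1) = -1 := fm1
  rw [h1]
  have h2 : k + 1 - (0 + 1) = k := by omega
  rw [h2, Nat.sub_zero]
  ring

/-- sums over the antidiagonal in which only the first three terms survive -/
theorem anti_f2 (g : ℕ → ℝ) (k : ℕ) :
    ∑ i ∈ Finset.HasAntidiagonal.antidiagonal (k + 2), f2 i.1 * g i.2 =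
      g (k + 2) - 2 * g (k + 1) + g k := by
  rw [Finset.Nat.sum_antidiagonal_eq_sum_range_succ (fun a b => f2 a * g b) (k + 2)]
  rw [Finset.sum_range_succ', Finset.sum_range_succ', Finset.sum_range_succ']
  have h : ∑ i ∈ Finset.range k, f2 (i + 1 + 1 + 1) * g (k + 2 - (i + 1 + 1 + 1)) = 0 := by
    refine Finset.sum_eq_zero fun i _ => ?_
    rw [f23, zero_mul]
  rw [h, f20]
  have h1 : f2 (0 + 1) = -2 := f21
  have h1' : f2 (0 + 1 + 1) = 1 := f22
  rw [h1, h1']
  have h2 : k + 2 - (0 + 1) = k + 1 := by omega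
  have h3 : k + 2 - (0 + 1 + 1) = k := by omega
  rw [h2, h3, Nat.sub_zero]
  ring

theorem anti_f2_one (g : ℕ → ℝ) :
    ∑ i ∈ Finset.HasAntidiagonal.antidiagonal 1, f2 i.1 * g i.2 = g 1 - 2 * g 0 := by
  rw [Finset.Nat.sum_antidiagonal_eq_sum_range_succ (fun a b => f2 a * g b) 1]
  rw [Finset.sum_range_succ', Finset.sum_range_succ', Finset.sum_range_zero, f20]
  have h1 : f2 (0 + 1) = -2 := f21
  rw [h1]
  have h2 : 1 - (0 + 1) = 0 := rfl
  rw [h2, Nat.sub_zero]
  ring

theorem anti_zero (f g : ℕ → ℝ) :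
    ∑ i ∈ Finset.HasAntidiagonal.antidiagonal 0, f i.1 * g i.2 = f 0 * g 0 := by
  rw [Finset.Nat.sum_antidiagonal_eq_sum_range_succ (fun a b => f a * g b) 0]
  simp

open Classical in
theorem pf_CVI (hC : T_CVP) : T_CVI := by
  intro α
  refine ⟨fun n => ?_, fun n => ?_, fun q n => ?_, fun S => ?_, fun n hn => ?_, fun n => ?_⟩
  · have h1 : (mr : (α →₀ ℕ) → ℝ) = fun a => a.prod fun _ k => fm k := funext mr_eq
    have h2 : (fun _ : α →₀ ℕ => (1 : ℝ)) = fun b => b.prod fun _ _ => (1 : ℝ) := funext one_eq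
    rw [h1, h2, hC α (fun _ => fm) (fun _ _ => 1) (fun _ => fm0) (fun _ => rfl) n]
    split_ifs with h0
    · rw [h0]
      exact Finsupp.prod_zero_index
    · obtain ⟨p, hp⟩ := Finsupp.support_nonempty_iff.2 h0
      refine Finset.prod_eq_zero hp ?_
      obtain ⟨k, hk⟩ := Nat.exists_eq_succ_of_ne_zero (Finsupp.mem_support_iff.1 hp)
      simp only [hk, Nat.succ_eq_add_one]
      rw [anti_fm (fun _ => 1) k]
      ring
  · have h1 : (mr : (α →₀ ℕ) → ℝ) = fun a => a.prod fun _ k => fm k := funext mr_eq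
    rw [h1, hC α (fun _ => fm) (fun _ => fm) (fun _ => fm0) (fun _ => fm0) n, m2_eq]
    refine Finset.prod_congr rfl fun p hp => ?_
    obtain ⟨k, hk⟩ := Nat.exists_eq_succ_of_ne_zero (Finsupp.mem_support_iff.1 hp)
    simp only [hk, Nat.succ_eq_add_one]
    rw [anti_fm fm k]
    rcases k with _ | _ | k
    · rw [fm0]
      have h3 : fm (0 + 1) = -1 := fm1
      have h4 : f2 (0 + 1) = -2 := f21
      rw [h3, h4]
      norm_num
    · have h3 : fm (0 + 1 + 1) = 0 := fm2 0
      have h4 : f2 (0 + 1 + 1) = 1 := f22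
      have h5 : fm (0 + 1) = -1 := fm1
      rw [h3, h4, h5]
      norm_num
    · have h3 : fm (k + 1 + 1 + 1) = 0 := fm2 (k + 1)
      have h4 : f2 (k + 1 + 1 + 1) = 0 := f23 k
      have h5 : fm (k + 1 + 1) = 0 := fm2 k
      rw [h3, h4, h5]
      norm_num
  · have h1 : (m2 : (α →₀ ℕ) → ℝ) = fun a => a.prod fun _ k => f2 k := funext m2_eq
    have h2 : hq q = fun b : α →₀ ℕ =>
        b.prod fun p k => if p ∈ q then (k : ℝ) + 1 else 1 - (k : ℝ) := rfl
    rw [h1, h2, hC α (fun _ => f2) (fun p k => if p ∈ q then (k : ℝ) + 1 else 1 - (k : ℝ))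
      (fun _ => f20) (fun p => by split_ifs <;> norm_num) n]
    unfold u2
    refine Finset.prod_congr rfl fun p hp => ?_
    obtain ⟨k, hk⟩ := Nat.exists_eq_succ_of_ne_zero (Finsupp.mem_support_iff.1 hp)
    simp only [hk, Nat.succ_eq_add_one]
    rcases k with _ | k
    · rw [anti_f2_one (fun k => if p ∈ q then (k : ℝ) + 1 else 1 - (k : ℝ))]
      by_cases hpq : p ∈ q
      · simp [hpq]
        norm_num
      · simp [hpq]
    · rw [anti_f2 (fun k => if p ∈ q then (k : ℝ) + 1 else 1 - (k : ℝ)) k]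
      have h3 : ¬ (k + 1 + 1 = 1 ∧ p ∉ q) := by omega
      rw [if_neg h3]
      by_cases hpq : p ∈ q
      · simp only [hpq, if_true]
        push_cast
        ring
      · simp only [hpq, if_false]
        push_cast
        ring
  · unfold mr Finsupp.prod
    rw [ind_support]
    have h1 : ∀ p ∈ S, (if ind S p = 1 then (-1 : ℝ) else 0) = -1 := by
      intro p hp
      rw [ind_apply, if_pos hp, if_pos rfl]
    rw [Finset.prod_congr rfl h1, Finset.prod_const]
  · rw [not_forall] at hn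
    obtain ⟨p, hp⟩ := hn
    rw [not_le] at hp
    unfold mr
    refine Finset.prod_eq_zero (i := p) (Finsupp.mem_support_iff.2 (by omega)) ?_
    show (if n p = 1 then (-1 : ℝ) else 0) = 0
    rw [if_neg (by omega)]
  · unfold mr Finsupp.prod
    rw [Finset.abs_prod]
    refine Finset.prod_le_one (fun _ _ => abs_nonneg _) fun p _ => ?_
    show |(if n p = 1 then (-1 : ℝ) else 0)| ≤ 1
    split_ifs <;> norm_num

end Pool.Agent.H11.NVK
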