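import Pool.Agent.H23.NVK.JTargets

/-! Row M_EQD of the board `nvk_modules`: the definitions of part M over a number field. -/

set_option autoImplicit false

open MeasureTheory Set Filter NumberField NumberField.InfinitePlace
open scoped Real

namespace Pool.Agent.H11.NVK

open Pool.Agent.H23.NVK
open Pool.Agent.H65.CM4 (Pl dg nm)
open Pool.Agent.H61.NVK (Vk kp c0)
open Pool.Agent.H89.NV (PrI np RA)

theorem np_eq {k : Type} [Field k] [NumberField k] (P : PrI k) : np P = (NP k P : ℝ) := rfl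

theorem nS_eq {k : Type} [Field k] [NumberField k] (S : Finset (PrI k)) :
    Pool.Agent.H89.NV.nS S = (nS (NP k) S : ℝ) := by
  unfold Pool.Agent.H89.NV.nS nS
  rw [Nat.cast_prod]
  rfl

theorem nm_eq {k : Type} [Field k] [NumberField k] (S : Finset (PrI k)) :
    nm (Pool.Agent.H89.NV.idS S) = (nS (NP k) S : ℝ) := by
  unfold Pool.Agent.H89.NV.idS nm nS
  rw [map_prod]
  rfl

theorem PM_eq {k : Type} [Field k] [NumberField k] (M : ℝ) :
    Pool.Agent.H89.NV.PM k M = PM (NP k) M := rfl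

theorem pf_EQD : T_EQD := by
  classical
  intro k _ _ _ δ h
  refine ⟨fun P => rfl, nS_eq, nm_eq, fun M => ?_, PM_eq, fun P M R m => ?_, fun R => ?_,
    fun R hR P hP => ?_⟩
  · ext S
    rw [h.mem_SM]
    unfold Pool.Agent.H89.NV.DM
    simp only [Finset.mem_filter, Finset.mem_powerset]
    rw [nS_eq]
    refine ⟨fun h1 => h1.2, fun h1 => ⟨fun P hP => ?_, h1⟩⟩
    rw [PM_eq, h.mem_PM]
    refine le_trans ?_ h1
    exact Nat.cast_le.2 (Nat.le_of_dvd (lt_of_lt_of_le zero_lt_one (h.one_le_nS S))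
      (Finset.dvd_prod_of_mem (NP k) hP))
  · unfold Pool.Agent.H89.NV.cm cm
    rw [nS_eq]
    by_cases hc : (nS (NP k) m : ℝ) ≤ M ∧ Disjoint m R
    · rw [if_pos hc, if_pos hc]
    · rw [if_neg hc, if_neg hc]
  · have hk : kp k ≠ 0 := h.rho.ne'
    unfold Pool.Agent.H89.NV.Sg Sg Pool.Agent.H89.NV.Hq Hq
    have h1 : ∀ X Y : ℝ, kp k ^ 4 * (1 / kp k ^ 2 * X) ^ 2 * Y = X ^ 2 * Y := by
      intro X Y
      field_simp
    rw [h1]
    refine congrArg₂ (fun x y : ℝ => x ^ 2 * y) (tprod_congr fun P => ?_)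
      (tprod_congr fun P => ?_)
    · by_cases hP : P ∈ R
      · rw [if_pos hP, if_pos hP]
        rfl
      · rw [if_neg hP, if_neg hP]
        rfl
    · by_cases hP : P ∈ R
      · rw [if_pos hP, if_pos hP]
        rfl
      · rw [if_neg hP, if_neg hP]
        rfl
  · refine hR P ?_
    have h1 := Ideal.absNorm_mem P.1
    have h2 : Ideal.absNorm P.1 = 2 := hP
    rw [h2] at h1
    exact_mod_cast h1

end Pool.Agent.H11.NVK
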